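import Pool.Agent.Helper37.KDB.Extra
import Pool.Agent.Helper37.KDB.St.D1
import Pool.Agent.Helper37.KDB.St.D3

/-! Project KDB, piece D12: the central velocity changes are close. -/

set_option autoImplicit false

namespace KDB.I.D12

open MeasureTheory KDB

variable (p : Par)

private lemma round_le (a : ℝ) : |(round a : ℝ)| ≤ |a| + 1 / 2 := by
  have h1 := abs_sub_round a
  have h3 := abs_add_le (-(a - (round a : ℝ))) a
  rw [abs_neg] at h3
  have h4 : -(a - (round a : ℝ)) + a = round a := by ring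
  rw [h4] at h3
  linarith

/-- the correction of an a-window is bounded -/
private lemma rm_bound {k e : ℕ} (hA : p.inA k e) (hx : 0 < p.xi k) (hx' : 0 < p.xi (k + 1))
    (x v : V p.d) (i : Fin p.d) :
    |((p.rm k e x v i : ℤ) : ℝ)| ≤ p.xi (k + 1) / p.xi k / 2 + 1 / 2 := by
  unfold Par.rm
  rw [if_pos hA]
  unfold Par.rd
  refine (round_le _).trans ?_
  have hra : p.rA k e x v = Par.rd (p.xi (k + 1)) (x + p.hrem k e • v) := by
    unfold Par.rA
    rw [if_pos hA]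
  set Y : V p.d := x + p.hrem k e • v with hY
  have h1 : (p.xi (k + 1) • Par.toV (p.rA k e x v) - Y) i =
      -(p.xi (k + 1) * (Y i / p.xi (k + 1) - round (Y i / p.xi (k + 1)))) := by
    rw [hra]
    simp only [Par.toV, Par.rd, Pi.sub_apply, Pi.smul_apply, smul_eq_mul]
    field_simp
    ring
  have h2 : |(p.xi (k + 1) • Par.toV (p.rA k e x v) - Y) i| ≤ p.xi (k + 1) / 2 := by
    rw [h1, abs_neg, abs_mul, abs_of_pos hx']
    have := abs_sub_round (Y i / p.xi (k + 1))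
    nlinarith
  rw [abs_div, abs_of_pos hx]
  have h3 : |(p.xi (k + 1) • Par.toV (p.rA k e x v) - Y) i| / p.xi k ≤
      p.xi (k + 1) / 2 / p.xi k := div_le_div_of_nonneg_right h2 hx.le
  have h4 : p.xi (k + 1) / 2 / p.xi k = p.xi (k + 1) / p.xi k / 2 := by ring
  linarith

/-- the central velocity changes are close -/
theorem wst_close (hp : p.Ok) (k m g e e' : ℕ) (hmk : m ≤ k) (hkn : k < p.n)
    (he : g ≤ e) (he' : g ≤ e') (h1 : e < g + p.tau m) (h2 : e' < g + p.tau m)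
    (hAB : (p.inA k e ∧ p.inA k e') ∨ (¬ p.inA k e ∧ ¬ p.inA k e'))
    (hsl : |(e : ℝ) - e'| * (p.L * (p.ell : ℝ) ^ (k - m + 1)) ≤ p.tau m)
    (x v x' v' : V p.d) (hm : p.rm k e x v = p.rm k e' x' v') :
    ‖p.wst k e x v - p.wst k e' x' v'‖ ≤ 2 * p.rho m := by
  have hLL : (1000 : ℝ) ≤ p.L := by exact_mod_cast hp.hL
  have hLpos : (0 : ℝ) < p.L := by linarith
  have hell : (1000 : ℝ) ≤ p.ell := by
    have h3 : p.L ^ 1 ≤ p.L ^ p.q := Nat.pow_le_pow_right (by have := hp.hL; omega) hp.hq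
    have h4 : 1000 ≤ p.ell := by
      unfold Par.ell
      have := hp.hL
      rw [pow_one] at h3
      omega
    exact_mod_cast h4
  have hellpos : (0 : ℝ) < p.ell := by linarith
  have hrho : ∀ j, 0 < p.rho j := fun j => pow_pos hellpos j
  have hxi : ∀ j, 0 < p.xi j := fun j => pow_pos (mul_pos hellpos hLpos) j
  rcases hAB with ⟨hA, hA'⟩ | ⟨hA, hA'⟩
  swap
  · unfold Par.wst
    rw [if_neg hA, if_neg hA', hm, sub_self, norm_zero]
    have := hrho m
    linarith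
  obtain ⟨hb1, -⟩ := hrem_bounds p hp k e hA
  obtain ⟨hb2, -⟩ := hrem_bounds p hp k e' hA'
  have hsame := same_T p hp k m g e e' hmk he he' h1 h2 hA hA'
  have hLk : (0 : ℝ) < (p.L : ℝ) ^ k := pow_pos hLpos k
  have hinv : (1 : ℝ) / p.ell ≤ 1 / 1000 := one_div_le_one_div_of_le (by norm_num) hell
  have hP : (0 : ℝ) < (p.L : ℝ) ^ k * (1 - 1 / p.ell) := mul_pos hLk (by linarith)
  have hh1 : 0 < p.hrem k e := lt_of_lt_of_le hP hb1
  have hh2 : 0 < p.hrem k e' := lt_of_lt_of_le hP hb2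
  have hhp : 0 < p.h := by
    unfold Par.h
    have : (0 : ℝ) < p.H := by exact_mod_cast hp.hH
    positivity
  -- the difference of the remaining times
  have hd : |p.hrem k e - p.hrem k e'| * (p.L * (p.ell : ℝ) ^ (k - m + 1)) ≤ (p.L : ℝ) ^ m := by
    have h3 : p.hrem k e - p.hrem k e' = -(p.h * ((e : ℝ) - e')) := by linarith
    rw [h3, abs_neg, abs_mul, abs_of_pos hhp, ← h_tau p hp m, mul_assoc]
    exact mul_le_mul_of_nonneg_left hsl hhp.le
  -- coordinates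
  rw [pi_norm_le_iff_of_nonneg (by have := hrho m; linarith)]
  intro i
  have hcoord : (p.wst k e x v - p.wst k e' x' v') i =
      p.xi k * (p.rm k e x v i : ℝ) * (p.hrem k e' - p.hrem k e) /
        (p.hrem k e * p.hrem k e') := by
    unfold Par.wst
    rw [if_pos hA, if_pos hA', hm]
    simp only [Par.toV, Pi.sub_apply, Pi.smul_apply, smul_eq_mul]
    field_simp
  have hr := rm_bound p hA (hxi k) (hxi (k + 1)) x v i
  have hquot : p.xi (k + 1) / p.xi k = p.ell * p.L := by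
    unfold Par.xi
    rw [pow_succ]
    field_simp
  rw [hquot] at hr
  have hr2 : |(p.rm k e x v i : ℝ)| ≤ p.ell * p.L * (1 - 1 / p.ell) ^ 2 := by
    refine hr.trans ?_
    have h5 : (1 - 1 / (p.ell : ℝ)) ^ 2 ≥ 9 / 10 := by
      have h6 : (0 : ℝ) ≤ 1 / p.ell := by positivity
      nlinarith only [hinv]
    have h7 : (1000 : ℝ) ≤ p.ell * p.L := by nlinarith only [hLL, hell]
    nlinarith only [hLL, hinv, hell, h5, h7]
  rw [Real.norm_eq_abs, hcoord, abs_div, abs_mul, abs_mul, abs_of_pos (hxi k),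
    abs_of_pos (mul_pos hh1 hh2), abs_sub_comm, div_le_iff₀ (mul_pos hh1 hh2)]
  -- clean up
  have hE : (0 : ℝ) < p.L * (p.ell : ℝ) ^ (k - m + 1) := mul_pos hLpos (pow_pos hellpos _)
  have hd2 : |p.hrem k e - p.hrem k e'| ≤ (p.L : ℝ) ^ m / (p.L * (p.ell : ℝ) ^ (k - m + 1)) := by
    rw [le_div_iff₀ hE]
    exact hd
  have hprod : (p.L : ℝ) ^ k * (1 - 1 / p.ell) * ((p.L : ℝ) ^ k * (1 - 1 / p.ell)) ≤
      p.hrem k e * p.hrem k e' := mul_le_mul hb1 hb2 hP.le hh1.le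
  have hkey : p.xi k * (p.ell * p.L * (1 - 1 / p.ell) ^ 2) *
      ((p.L : ℝ) ^ m / (p.L * (p.ell : ℝ) ^ (k - m + 1))) ≤
      2 * p.rho m * ((p.L : ℝ) ^ k * (1 - 1 / p.ell) * ((p.L : ℝ) ^ k * (1 - 1 / p.ell))) := by
    obtain ⟨t, rfl⟩ := Nat.exists_eq_add_of_le hmk
    have e1 : m + t - m + 1 = t + 1 := by omega
    rw [e1]
    unfold Par.xi Par.rho
    have h8 : ((p.ell : ℝ) * p.L) ^ (m + t) * (p.ell * p.L * (1 - 1 / p.ell) ^ 2) *
        ((p.L : ℝ) ^ m / (p.L * (p.ell : ℝ) ^ (t + 1))) =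
        (p.ell : ℝ) ^ m * (1 - 1 / p.ell) ^ 2 * ((p.L : ℝ) ^ (m + t) * (p.L : ℝ) ^ m) := by
      rw [mul_pow, pow_add (p.ell : ℝ) m t, pow_succ]
      field_simp
      ring
    rw [h8]
    have h9 : (p.L : ℝ) ^ m ≤ (p.L : ℝ) ^ (m + t) :=
      pow_le_pow_right₀ (by linarith) (Nat.le_add_right m t)
    have h10 : (p.L : ℝ) ^ (m + t) * (p.L : ℝ) ^ m ≤ (p.L : ℝ) ^ (m + t) * (p.L : ℝ) ^ (m + t) :=
      mul_le_mul_of_nonneg_left h9 hLk.le
    have h11 : (0 : ℝ) ≤ (p.ell : ℝ) ^ m * (1 - 1 / p.ell) ^ 2 := by positivity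
    have h12 := mul_le_mul_of_nonneg_left h10 h11
    have h13 : (0 : ℝ) ≤ (p.ell : ℝ) ^ m * (1 - 1 / p.ell) ^ 2 *
        ((p.L : ℝ) ^ (m + t) * (p.L : ℝ) ^ (m + t)) := by positivity
    calc _ ≤ _ := h12
      _ ≤ _ := by nlinarith only [h13, h13]
  calc p.xi k * |(p.rm k e x v i : ℝ)| * |p.hrem k e - p.hrem k e'|
      ≤ p.xi k * (p.ell * p.L * (1 - 1 / p.ell) ^ 2) *
        ((p.L : ℝ) ^ m / (p.L * (p.ell : ℝ) ^ (k - m + 1))) := by
        refine mul_le_mul (mul_le_mul_of_nonneg_left hr2 (hxi k).le) hd2 (abs_nonneg _) ?_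
        have := hxi k
        positivity
    _ ≤ _ := hkey
    _ ≤ _ := mul_le_mul_of_nonneg_left hprod (by have := hrho m; linarith)

end KDB.I.D12
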